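import Pool.Agent.Helper34.SG.Build

/-!
MP_ff0b57_lc, block C1: the countable chain condition and countable maximal antichains.
-/

namespace Pool.Agent.Helper34.SG

open Set Function

set_option linter.unusedSectionVars false

variable {I : Type} [LinearOrder I] [WellFoundedLT I]

namespace C1

/-- A family of finite partial functions of size `n` from `I` to a countable set such that any two
different members conflict is countable. -/
theorem cnt (n : ℕ) : ∀ A : Set (Finset (I × List ℕ)), (∀ a ∈ A, a.card = n) →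
    (∀ a ∈ A, ∀ η s s', (η, s) ∈ a → (η, s') ∈ a → s = s') →
    (∀ a ∈ A, ∀ b ∈ A, a ≠ b → ∃ η s s', (η, s) ∈ a ∧ (η, s') ∈ b ∧ s ≠ s') →
    A.Countable := by
  induction n with
  | zero =>
    intro A h1 _ _
    refine (Set.countable_singleton (∅ : Finset (I × List ℕ))).mono fun a ha => ?_
    exact Finset.card_eq_zero.1 (h1 a ha)
  | succ n ih =>
    intro A h1 h2 h3
    have key : ∀ x : I × List ℕ, {a ∈ A | x ∈ a}.Countable := by
      intro x
      have hinj : Set.InjOn (fun a : Finset (I × List ℕ) => a.erase x) {a ∈ A | x ∈ a} := by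
        intro a ha b hb hab
        have := congrArg (insert x) hab
        simpa [Finset.insert_erase ha.2, Finset.insert_erase hb.2] using this
      refine Set.countable_of_injective_of_countable_image hinj ?_
      refine ih _ ?_ ?_ ?_
      · rintro _ ⟨a, ha, rfl⟩
        simp only
        rw [Finset.card_erase_of_mem ha.2, h1 a ha.1]
        rfl
      · rintro _ ⟨a, ha, rfl⟩ η s s' hs hs'
        exact h2 a ha.1 η s s' (Finset.mem_of_mem_erase hs) (Finset.mem_of_mem_erase hs')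
      · rintro _ ⟨a, ha, rfl⟩ _ ⟨b, hb, rfl⟩ hab
        have hne : a ≠ b := fun e => hab (by rw [e])
        obtain ⟨η, s, s', hs, hs', hss⟩ := h3 a ha.1 b hb.1 hne
        refine ⟨η, s, s', Finset.mem_erase.2 ⟨?_, hs⟩, Finset.mem_erase.2 ⟨?_, hs'⟩, hss⟩
        · intro e
          exact hss (h2 b hb.1 η s s' (by rw [e]; exact hb.2) hs')
        · intro e
          exact hss (h2 a ha.1 η s s' hs (by rw [e]; exact ha.2))
    rcases A.eq_empty_or_nonempty with h | ⟨a₀, h0⟩
    · rw [h]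
      exact Set.countable_empty
    · have hc : ({a₀} ∪ ⋃ x ∈ a₀, ⋃ s' : List ℕ, {a ∈ A | (x.1, s') ∈ a}).Countable := by
        refine (Set.countable_singleton _).union ?_
        refine Set.Countable.biUnion a₀.countable_toSet fun x _ => ?_
        exact Set.countable_iUnion fun s' => key _
      refine hc.mono fun a ha => ?_
      by_cases e : a = a₀
      · exact Or.inl e
      · obtain ⟨η, s, s', hs, hs', -⟩ := h3 a₀ h0 a ha (Ne.symm e)
        refine Or.inr ?_
        simp only [Set.mem_iUnion]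
        exact ⟨(η, s), hs, s', ha, hs'⟩

/-- the finite partial function of the stems below `ξ` -/
noncomputable def stems (ξ : I) (p : Cn I) : Finset (I × List ℕ) := by
  classical
  exact if h : {η | η < ξ ∧ p.dom η}.Finite then h.toFinset.image (fun η => (η, p.st η)) else ∅

theorem mem_stems {ξ : I} {p : Cn I} (hp : Val ξ p) {η : I} {s : List ℕ} :
    (η, s) ∈ stems ξ p ↔ η < ξ ∧ p.dom η ∧ p.st η = s := by
  have h := ((Val_iff ξ p).1 hp).1
  unfold stems
  rw [dif_pos h]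
  simp only [Finset.mem_image, Set.Finite.mem_toFinset, Set.mem_setOf_eq, Prod.mk.injEq]
  constructor
  · rintro ⟨η', ⟨h1, h2⟩, rfl, h3⟩
    exact ⟨h1, h2, h3⟩
  · rintro ⟨h1, h2, h3⟩
    exact ⟨η, ⟨h1, h2⟩, rfl, h3⟩

end C1

open C1

theorem ccc (ξ : I) (A : Set (Cn I)) (hA : ∀ p ∈ A, Val ξ p)
    (h : ∀ p ∈ A, ∀ q ∈ A, p ≠ q → Inc ξ p q) : A.Countable := by
  have hconf : ∀ p ∈ A, ∀ q ∈ A, p ≠ q → ∃ η s s', (η, s) ∈ stems ξ p ∧ (η, s') ∈ stems ξ q ∧
      s ≠ s' := by
    intro p hp q hq hpq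
    by_contra hcon
    push Not at hcon
    have h1 := jn_ext (hA p hp) (hA q hq) (fun η hη hd hd' =>
      hcon η _ _ ((mem_stems (hA p hp)).2 ⟨hη, hd, rfl⟩) ((mem_stems (hA q hq)).2 ⟨hη, hd', rfl⟩))
    exact (h p hp q hq hpq).not h1.1 h1.2
  have hinj : Set.InjOn (stems ξ) A := by
    intro p hp q hq e
    by_contra hne
    obtain ⟨η, s, s', h1, h2, h3⟩ := hconf p hp q hq hne
    rw [e] at h1
    obtain ⟨-, -, h4⟩ := (mem_stems (hA q hq)).1 h1
    obtain ⟨-, -, h5⟩ := (mem_stems (hA q hq)).1 h2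
    exact h3 (h4.symm.trans h5)
  refine Set.countable_of_injective_of_countable_image hinj ?_
  have hU : stems ξ '' A ⊆ ⋃ n : ℕ, {a ∈ stems ξ '' A | a.card = n} := by
    intro a ha
    exact Set.mem_iUnion.2 ⟨a.card, ha, rfl⟩
  refine (Set.countable_iUnion fun n => ?_).mono hU
  refine cnt n _ (fun a ha => ha.2) ?_ ?_
  · rintro _ ⟨⟨p, hp, rfl⟩, -⟩ η s s' h1 h2
    obtain ⟨-, -, h4⟩ := (mem_stems (hA p hp)).1 h1
    obtain ⟨-, -, h5⟩ := (mem_stems (hA p hp)).1 h2
    exact h4.symm.trans h5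
  · rintro _ ⟨⟨p, hp, rfl⟩, -⟩ _ ⟨⟨q, hq, rfl⟩, -⟩ hne
    exact hconf p hp q hq fun e => hne (by rw [e])

theorem exists_antichain (ξ : I) (D : Cn I → Prop) : ∃ A : Set (Cn I), A.Countable ∧
    (∀ a ∈ A, Val ξ a ∧ D a) ∧ (∀ a ∈ A, ∀ b ∈ A, a ≠ b → Inc ξ a b) ∧
      ∀ p, Val ξ p → D p → ∃ a ∈ A, ¬ Inc ξ p a := by
  obtain ⟨A, hA⟩ := zorn_subset
    {A : Set (Cn I) | (∀ a ∈ A, Val ξ a ∧ D a) ∧ ∀ a ∈ A, ∀ b ∈ A, a ≠ b → Inc ξ a b} (by
      intro c hc hchain
      refine ⟨⋃₀ c, ⟨?_, ?_⟩, fun s hs => Set.subset_sUnion_of_mem hs⟩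
      · rintro a ⟨s, hs, ha⟩
        exact (hc hs).1 a ha
      · rintro a ⟨s, hs, ha⟩ b ⟨t, ht, hb⟩ hab
        rcases hchain.total hs ht with hst | hst
        · exact (hc ht).2 a (hst ha) b hb hab
        · exact (hc hs).2 a ha b (hst hb) hab)
  have hmem := hA.prop
  refine ⟨A, ccc ξ A (fun p hp => (hmem.1 p hp).1) hmem.2, hmem.1, hmem.2, fun p hp hD => ?_⟩
  by_contra hcon
  push Not at hcon
  have h1 : insert p A ∈ {A : Set (Cn I) | (∀ a ∈ A, Val ξ a ∧ D a) ∧
      ∀ a ∈ A, ∀ b ∈ A, a ≠ b → Inc ξ a b} := by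
    constructor
    · rintro a (rfl | ha)
      · exact ⟨hp, hD⟩
      · exact hmem.1 a ha
    · rintro a (rfl | ha) b (rfl | hb) hab
      · exact absurd rfl hab
      · exact hcon b hb
      · exact (hcon a ha).symm
      · exact hmem.2 a ha b hb hab
  have h2 : p ∈ A := hA.le_of_ge h1 (Set.subset_insert p A) (Set.mem_insert p A)
  exact (hcon p h2).not (Ext.refl hp) (Ext.refl hp)

end Pool.Agent.Helper34.SG
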