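import Pool.Agent.Helper34.SG.Names
import Pool.Agent.Helper5.SG.Ccc

/-!
MP_ff0b57_lc, block J: one E-set of the stage `α` covers all closed null sets of the model `V_α`.
-/

namespace Pool.Agent.Helper34.SG

open Set Function

set_option linter.unusedSectionVars false

variable {I : Type} [LinearOrder I] [WellFoundedLT I]

namespace J

/-- success at `n` -/
def Suc {α : I} (N : NS α) (b : Cn I) (n : ℕ) : Prop :=
  ∃ v, (b.st α)[n]? = some v ∧ N.U n (W n v) b

/-- a success at some `n ≥ m` -/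
def D {α : I} (N : NS α) (m : ℕ) (b : Cn I) : Prop := b.dom α ∧ ∃ n ≥ m, Suc N b n

theorem exists_len {γ α : I} (h : α < γ) (k : ℕ) : ∀ p : Cn I, Val γ p →
    ∃ q, Ext γ q p ∧ q.dom α ∧ k ≤ (q.st α).length := by
  induction k with
  | zero =>
    intro p hp
    obtain ⟨q, h1, h2, -⟩ := exists_dom α hp
    exact ⟨q, h1, h2, Nat.zero_le _⟩
  | succ k ih =>
    intro p hp
    obtain ⟨q, h1, h2, h3⟩ := ih p hp
    obtain ⟨r, g1, g2, g3, -, -, M, g4⟩ := exists_addV h1.1 h h2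
    refine ⟨_, (g4 M le_rfl).trans (g1.trans h1), Or.inl rfl, ?_⟩
    rw [upd_st, List.length_append, List.length_singleton, g3]
    omega

theorem exists_D {α γ : I} (h : α < γ) (N : NS α) (m : ℕ) {p : Cn I} (hp : Val γ p) :
    ∃ q, Ext γ q p ∧ D N m q := by
  obtain ⟨q, h1, h2, h3⟩ := exists_len h m p hp
  obtain ⟨q₁, u, h4, h5⟩ := N.dense (q.st α).length q (h1.1.anti h.le)
  have h6 : Ext γ (mix α q₁ q) q := mix_ext h4 h1.1
  obtain ⟨q₃, g1, g2, g3, -, -, M, g4⟩ := exists_addV h6.1 h ((mix_dom le_rfl).2 h2)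
  have hv : M ≤ Nat.pair (Encodable.encode u) M := Nat.right_le_pair _ _
  have g5 := g4 _ hv
  rw [mix_st le_rfl] at g3
  have hext : Ext α (upd α q₃ (q₃.st α ++ [Nat.pair (Encodable.encode u) M]) (q₃.fc α)
      (q₃.fm α)) q₁ :=
    ((g5.trans g1).anti h.le).trans (mix_ext' h4.1)
  have hW : W (q.st α).length (Nat.pair (Encodable.encode u) M) = u := by
    have hd : dec (Nat.pair (Encodable.encode u) M) = u := by
      simp [dec, Nat.unpair_pair]
    unfold W
    rw [hd, if_pos (N.small _ _ _ h5)]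
  refine ⟨_, g5.trans (g1.trans (h6.trans h1)), Or.inl rfl, (q.st α).length, h3,
    Nat.pair (Encodable.encode u) M, ?_, ?_⟩
  · rw [upd_st, g3]
    simp
  · rw [hW]
    exact N.mono _ _ _ _ hext h5

open Classical in
/-- the success of `b` -/
noncomputable def nb {α : I} (N : NS α) (m : ℕ) (b : Cn I) : ℕ :=
  if h : ∃ n ≥ m, Suc N b n then Classical.choose h else 0

theorem nb_spec {α : I} {N : NS α} {m : ℕ} {b : Cn I} (h : D N m b) :
    m ≤ nb N m b ∧ Suc N b (nb N m b) := by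
  unfold nb
  rw [dif_pos h.2]
  exact Classical.choose_spec h.2

/-- enumerated maximal antichains -/
theorem exists_enum {α α' : I} (h : α < α') (N : NS α) (m : ℕ) : ∃ e : ℕ → Cn I,
    (∀ j, Val α' (e j) ∧ D N m (e j)) ∧ (∀ i j, e i ≠ e j → Inc α' (e i) (e j)) ∧
      ∀ p, Val α' p → ∃ j, ¬ Inc α' p (e j) := by
  obtain ⟨A, hc, h1, h2, h3⟩ := exists_antichain α' (D N m)
  have h4 : ∀ p, Val α' p → ∃ a ∈ A, ¬ Inc α' p a := by
    intro p hp
    obtain ⟨q, hq, hD⟩ := exists_D h N m hp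
    obtain ⟨a, ha, hi⟩ := h3 q hq.1 hD
    exact ⟨a, ha, fun hi' => hi (hi'.mono hq.2 (Le.refl _ _))⟩
  obtain ⟨a, ha, -⟩ := h4 (emp I) (Val_emp α')
  obtain ⟨e, rfl⟩ := hc.exists_eq_range ⟨a, ha⟩
  refine ⟨e, fun j => h1 _ ⟨j, rfl⟩, fun i j => h2 _ ⟨i, rfl⟩ _ ⟨j, rfl⟩, fun p hp => ?_⟩
  obtain ⟨_, ⟨j, rfl⟩, hi⟩ := h4 p hp
  exact ⟨j, hi⟩

end J

open J

theorem covering {κ α α' : I} (hα : ∀ η, η < α' ↔ η ≤ α) (hα' : α' < κ) (x : RN κ) (N : NS α)
    {q : Cn I} (hq : Val κ q) (h : Covers κ x.toCN.O N q) :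
    ∃ j r, Ext κ r q ∧ FIn κ x (EC α α') j r := by
  have hlt : α < α' := (hα α).2 le_rfl
  choose e he1 he2 he3 using fun m => exists_enum hlt N m
  have hF : ValF α' (fun t j => e t.length j) (fun t j => nb N t.length (e t.length j) + 1) := by
    refine ⟨fun t j => (he1 t.length j).1, fun t p hp => ?_⟩
    obtain ⟨j₀, hj⟩ := he3 t.length p hp
    unfold Inc at hj
    push Not at hj
    obtain ⟨u, hu, hu1, hu2⟩ := hj
    refine ⟨u, ⟨hu, hu1⟩, nb N t.length (e t.length j₀) + 1, fun j hj => ?_⟩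
    have hne : e t.length j₀ ≠ e t.length j := by
      intro e'
      rw [e'] at hj
      exact lt_irrefl _ hj
    exact (he2 t.length j₀ j hne).mono hu2 (Le.refl _ _)
  obtain ⟨q₁, h1, h2, -, -⟩ := exists_dom α' hq
  have h3 := addF_ext h1.1 h2 (h1.1.valF hα' h2) hF
  refine ⟨(q₁.st α').length, _, h3.trans h1, ?_⟩
  rintro s p hp ⟨j', m, b₀, s', hjs, hjm, hdα, hdα', hb0, hb1, hap⟩ p' hp' hD
  obtain ⟨hj, hs⟩ := Nat.pair_eq_pair.1 hjs
  have hs := Encodable.encode_injective hs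
  subst hj
  subst hs
  obtain ⟨j₀, hj⟩ := he3 m p' (hp'.1.anti hα'.le)
  unfold Inc at hj
  push Not at hj
  obtain ⟨u, hu, hu1, hu2⟩ := hj
  have hup : Ext α' u p := ⟨hu, hu1.trans (hp'.2.anti hα'.le)⟩
  -- the family of `r` is obeyed
  have hle := (Le_iff κ p _).1 hp.2 α' hα' (Or.inl rfl)
  obtain ⟨-, l1, l2, -⟩ := hle
  rw [upd_st] at l1 l2
  rw [upd_fc, upd_fm] at l2
  have hm : m < (p.st α').length := by
    by_contra hcon
    rw [List.getElem?_eq_none (by omega)] at hb0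
    exact absurd hb0 (by simp)
  have ht : (p.st α').take m ++ [b₀] <+: p.st α' := by
    have e1 : (p.st α')[m] = b₀ := by
      rw [List.getElem?_eq_getElem hm] at hb0
      exact Option.some.inj hb0
    rw [← e1, List.take_concat_get' _ _ hm]
    exact List.take_prefix _ _
  have htl : ((p.st α').take m).length = m := by
    rw [List.length_take]
    omega
  have hq1 : q₁.st α' <+: (p.st α').take m := by
    refine List.prefix_of_prefix_length_le l1 (List.take_prefix _ _) ?_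
    rw [htl]
    exact hjm
  have hOb := (Ob_join.1 (l2 _ _ hq1 ht)).2
  have hn : nb N m (e m j₀) < b₀ := by
    by_contra hcon
    have h5 := hOb j₀ (by
      simp only [htl]
      omega)
    simp only [htl] at h5
    exact h5.not hup ⟨hu, hu2⟩
  obtain ⟨hm1, v, hv1, hv2⟩ := nb_spec (he1 m j₀).2
  have hleb := (Le_iff α' u _).1 hu2 α hlt (he1 m j₀).2.1
  have hlep := (Le_iff α' u _).1 hup.2 α hlt hdα
  have hpv : (p.st α)[nb N m (e m j₀)]? = some v := by
    have hl : nb N m (e m j₀) < (p.st α).length := by omega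
    have hl' : nb N m (e m j₀) < ((e m j₀).st α).length := by
      by_contra hcon
      rw [List.getElem?_eq_none (by omega)] at hv1
      exact absurd hv1 (by simp)
    obtain ⟨w1, hw1⟩ := hleb.2.1
    obtain ⟨w2, hw2⟩ := hlep.2.1
    have e1 : (u.st α)[nb N m (e m j₀)]? = some v := by
      rw [← hw1, List.getElem?_append_left hl', hv1]
    rw [← hw2, List.getElem?_append_left hl] at e1
    exact e1
  have hA := hap _ v hm1 hn hpv
  have hup' : Ext α' u p' := ⟨hu, hu1⟩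
  have h6 : Ext κ (mix α' u p') p' := mix_ext hup' hp'.1
  have h7 : Ext α' (mix α' u p') (e m j₀) := (mix_ext' hu).trans ⟨hu, hu2⟩
  have h8 := N.mono _ _ _ _ (h7.anti hlt.le) hv2
  have h9 := h _ _ _ ((h6.trans hp').trans (hp.trans (h3.trans h1))) h8 s hA
  exact h9 _ (Ext.refl h6.1) ((x.reg s).mono _ _ h6 hD)

end Pool.Agent.Helper34.SG
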